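import Mathlib
import Pool.Agent.Helper649.ZonoC

/-!
Lower bounds for the number `N` of segments of a zonotope approximating the Euclidean ball of
dimension `n` up to `ε`, valid jointly in `n` and `ε`.
-/

set_option autoImplicit false

open scoped RealInnerProductSpace Nat

namespace Pool.Agent.Results.MP_afcad2_gt.JointLowerBound

/-- there are `N` vectors `x_j` of Euclidean `n`-space with
`(1-ε)|v| ≤ ∑ |⟨v,x_j⟩| ≤ (1+ε)|v|` for all `v` -/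
def Approx (n N : ℕ) (ε : ℝ) : Prop :=
  ∃ x : Fin N → EuclideanSpace ℝ (Fin n), ∀ v : EuclideanSpace ℝ (Fin n),
    (1 - ε) * ‖v‖ ≤ ∑ j, |⟪v, x j⟫| ∧ ∑ j, |⟪v, x j⟫| ≤ (1 + ε) * ‖v‖

theorem result :
    (∀ (n k N : ℕ) (ε : ℝ), 1 ≤ n → 1 ≤ k → 0 < ε → ε < 1 → Approx n N ε →
      min ((n : ℝ) ^ k / (2 * ((2 * k - 1)‼ : ℕ)))
        ((1 - ε) ^ 2 / (24 * Real.pi * (k : ℝ) ^ (5 / 2 : ℝ) * ε ^ 2)) ≤ N) ∧
    (∀ K : ℕ, 1 ≤ K → ∃ c : ℝ, 0 < c ∧ ∀ (n N : ℕ) (ε : ℝ), 1 ≤ n → 0 < ε → ε ≤ 1 / 2 →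
      Approx n N ε → c * min ((n : ℝ) ^ K) ((1 / ε) ^ 2) ≤ N) ∧
    (∀ (n N : ℕ) (ε : ℝ), 0 < ε → ε ≤ 1 / 2 → 20 * Real.log (1 / ε) ≤ n → Approx n N ε →
      (1 / ε) ^ 2 / (20000 * Real.log (1 / ε) ^ (5 / 2 : ℝ)) ≤ N) :=
  ⟨fun n k N ε hn hk h0 h1 h => Pool.Agent.Helper649.Zono.boundA n k N hn hk ε h0 h1 h,
    fun K hK => Pool.Agent.Helper649.Zono.boundB K hK,
    fun n N ε h0 h1 hn h => Pool.Agent.Helper649.Zono.boundC n N ε h0 h1 hn h⟩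

end Pool.Agent.Results.MP_afcad2_gt.JointLowerBound
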